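import Mathlib

set_option autoImplicit false

namespace Pool.Agent.Results.MP_6bbb8b_nt.No

open Finset Polynomial

/-- `(d k, …, d 0)_b` is an `(n, b)`-palintiple with carries `c 0, …, c (k+1)`. -/
def Pal (n b k : ℕ) (d c : ℕ → ℕ) : Prop :=
  3 ≤ b ∧ 1 < n ∧ n < b ∧ 1 ≤ k ∧ (∀ j ≤ k, d j < b) ∧ d 0 ≠ 0 ∧
    ∑ j ∈ range (k + 1), d j * b ^ j = n * ∑ j ∈ range (k + 1), d (k - j) * b ^ j ∧
    c 0 = 0 ∧ c (k + 1) = 0 ∧ ∀ j ≤ k, n * d (k - j) + c j = d j + b * c (j + 1)

theorem gauss {M p q u v : ℤ} {G : ℕ → ℤ} {K : ℕ} (h0 : ∀ j, j < 3 ∨ K ≤ j → G j = 0)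
    (h : ∀ j, M ∣ p * G (j + 3) + q * G (j + 2) + u * G (j + 1) + v * G j) (i : ℕ) :
    M ∣ p * G i ∧ M ∣ q * G i := by
  obtain ⟨Q, hQ⟩ : ∃ Q : ℤ[X], ∀ j, Q.coeff j = G j :=
    ⟨∑ j ∈ range K, monomial j (G j), fun j => by
      simp only [finsetSum_coeff, coeff_monomial, sum_ite_eq', mem_range]
      split_ifs with c
      · rfl
      · exact (h0 j (.inr (not_lt.mp c))).symm⟩
  have : M ∣ (C p + C q * X ^ 1 + C u * X ^ 2 + C v * X ^ 3).content * Q.content := by
    rw [← content_mul, dvd_content_iff_C_dvd, C_dvd_iff_dvd_coeff]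
    intro j
    simp only [add_mul, mul_assoc, coeff_add, coeff_C_mul, coeff_X_pow_mul', hQ]
    rcases j with _ | _ | _ | j
    · simp [h0]
    · simp [h0]
    · simp [h0]
    · simpa using h j
  refine ⟨this.trans (mul_dvd_mul ?_ (hQ i ▸ content_dvd_coeff i)),
    this.trans (mul_dvd_mul ?_ (hQ i ▸ content_dvd_coeff i))⟩
  · convert content_dvd_coeff 0; simp [-eq_intCast]
  · convert content_dvd_coeff 1; simp [-eq_intCast, coeff_X_pow]

theorem ar {N n e r s g : ℤ} (he : 0 < e) (hr : 0 < r) (hg : 0 < g) (hn : 1 < n)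
    (h1 : r * s = n ^ 2 - 1) (h2 : r * g < n) (h3 : g * (n * e + r) < N)
    (h4 : N ^ 2 - 1 ∣ g * e * (e + N * (n * e + r))) : N = n + e * s := by
  obtain ⟨a, ha⟩ := h4
  obtain ⟨f, hf⟩ : ∃ f, f = n * e + r := ⟨_, rfl⟩
  rw [← hf] at h3 ha
  obtain ⟨c, hc⟩ : ∃ c, c = N * a - g * e * f := ⟨_, rfl⟩
  have ef : e < f := by nlinarith
  have gf : 2 ≤ g * f := by nlinarith
  have M0 : 0 < N ^ 2 - 1 := by nlinarith
  have hc' : g * e * (f + N * e) = (N ^ 2 - 1) * c := by rw [hc]; linear_combination N * ha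
  have e2 : g * e * e = N * c - a := by
    refine mul_left_cancel₀ M0.ne' ?_
    linear_combination N * hc' - ha
  have ge : 0 < g * e := by positivity
  have c0 : 0 < c := (mul_pos_iff_of_pos_left M0).mp (hc' ▸ mul_pos ge (by nlinarith))
  have ca : c < a := by
    refine lt_of_mul_lt_mul_left ?_ M0.le
    rw [← ha, ← hc']
    exact mul_lt_mul_of_pos_left (by nlinarith) ge
  have ae : a < e := by
    refine lt_of_mul_lt_mul_left ?_ M0.le
    rw [← ha]
    have : g * e < g * f := by gcongr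
    have : g * e + N * (g * f) < N ^ 2 - 1 := by nlinarith
    nlinarith
  have W : g * e * (f * c - e * a) = a ^ 2 - c ^ 2 := by linear_combination c * hc - a * e2
  have W0 : 0 < f * c - e * a := (mul_pos_iff_of_pos_left ge).mp (W ▸ by nlinarith)
  have W1 : f * c - e * a < e := by
    refine lt_of_mul_lt_mul_left ?_ ge.le
    rw [W]; nlinarith [mul_le_mul_of_nonneg_right (show 1 ≤ g by omega) (mul_pos he he).le]
  have rn : r < n := by nlinarith
  rcases lt_trichotomy a (n * c) with h | h | h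
  · nlinarith
  · have : N * r = (n + e * s) * r := by
      refine mul_left_cancel₀ c0.ne' ?_
      subst h hf
      linear_combination e * hc - (n * e + r) * e2 - c * e * h1
    exact mul_right_cancel₀ hr.ne' this
  · nlinarith

theorem result (n b k n' b' : ℕ) (d c d' c' : ℕ → ℕ) (h : Pal n b k d c)
    (hs : ∀ j ≤ k, c j = c (k - j + 1)) (h' : Pal n' b' (k + 2) d' c')
    (hc : ∀ j ≤ k, c' (j + 1) = d j) (hk : c' (k + 2) = 0) : n' = b := by
  obtain ⟨-, a1, a2, a3, a4, a5, -, a6, a7, a8⟩ := h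
  obtain ⟨-, b1, b2, -, b4, -, -, b6, b7, b8⟩ := h'
  have s1 : ∀ j ≤ k + 1, c (k + 1 - j) = c j := fun j hj => by
    rcases hj.eq_or_lt with rfl | h
    · simp [a6, a7]
    · rw [hs j (by omega)]; congr 1; omega
  have f1 : ∀ j ≤ k, ((n : ℤ) ^ 2 - 1) * d j = (n * b - 1) * c j + (b - n) * c (j + 1) := fun j hj => by
    have u := a8 j hj
    have v := a8 (k - j) (by omega)
    rw [Nat.sub_sub_self hj, ← hs j hj, show k - j = k + 1 - (j + 1) by omega, s1 _ (by omega),
      show k + 1 - (j + 1) = k - j by omega] at v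
    zify at u v
    linear_combination n * v + u
  have z1 : (1 : ℤ) < n := by exact_mod_cast a1
  have z2 : (n : ℤ) < b := by exact_mod_cast a2
  obtain ⟨s, e, r, s0, cop, he, hr⟩ := Int.exists_gcd_one' (m := b - n) (n := n ^ 2 - 1)
    (Int.gcd_pos_of_ne_zero_left _ (by omega))
  have s0 : (0 : ℤ) < s := by exact_mod_cast s0
  have e0 : 0 < e := (mul_pos_iff_of_pos_right s0).mp (he ▸ by omega)
  have r0 : 0 < r := (mul_pos_iff_of_pos_right s0).mp (hr ▸ by nlinarith)
  have f2 : ∀ j ≤ k, r * d j = (n * e + r) * c j + e * c (j + 1) := fun j hj =>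
    mul_left_cancel₀ s0.ne' (by linear_combination f1 j hj + (c j - d j) * hr + (n * c j + c (j + 1)) * he)
  have f3 : ∀ j ≤ k + 1, r ∣ c j := fun j hj => by
    induction j with
    | zero => simp [a6]
    | succ j ih =>
      refine (Int.isCoprime_iff_gcd_eq_one.mpr cop).symm.dvd_of_dvd_mul_left ?_
      rw [← sub_eq_iff_eq_add'.mpr (f2 j (by omega))]
      exact dvd_sub (dvd_mul_right _ _) ((ih (by omega)).mul_left _)
  obtain ⟨G, g0, g1⟩ : ∃ G : ℕ → ℤ, (∀ j, j < 3 ∨ k + 3 ≤ j → G j = 0) ∧ ∀ j ≤ k + 1, (c j : ℤ) = r * G (j + 2) :=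
    ⟨fun j => if j ≤ k + 3 then c (j - 2) / r else 0, fun j hj => by
      dsimp only
      split_ifs
      · rcases hj with hj | hj
        · rw [show j - 2 = 0 by omega, a6]; simp
        · rw [show j - 2 = k + 1 by omega, a7]; simp
      · rfl, fun j hj => by
      simp only [if_pos (show j + 2 ≤ k + 3 by omega), Nat.add_sub_cancel, Int.mul_ediv_cancel' (f3 j hj)]⟩
  have f4 : ∀ j ≤ k + 3, (c' j : ℤ) = (n * e + r) * G (j + 1) + e * G (j + 2) := fun j hj => by
    rcases j with _ | j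
    · simp [b6, g0]
    · by_cases h : j ≤ k
      · refine mul_left_cancel₀ r0.ne' ?_
        rw [hc j h, f2 j h, g1 j (by omega), g1 (j + 1) (by omega)]; ring
      · rw [g0 _ (by omega), g0 _ (by omega)]
        obtain rfl | rfl : j = k + 1 ∨ j = k + 2 := by omega
        · simp [hk]
        · simp [b7]
  have f5 : ∀ j ≤ k + 5, G (k + 5 - j) = G j := fun j hj => by
    by_cases h : j < 3 ∨ k + 3 ≤ j
    · rw [g0 j h, g0 _ (by omega)]
    · refine mul_left_cancel₀ r0.ne' ?_
      obtain ⟨j, rfl⟩ := Nat.exists_eq_add_of_le' (show 2 ≤ j by omega)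
      rw [← g1 j (by omega), ← s1 j (by omega), g1 _ (by omega)]
      congr 2; omega
  have f6 : ∀ j ≤ k + 3, (c' (k + 3 - j) : ℤ) = (n * e + r) * G (j + 1) + e * G j := fun j hj => by
    rw [f4 _ (by omega), ← f5 j (by omega), ← f5 (j + 1) (by omega)]
    congr 3 <;> omega
  obtain ⟨q1, q2⟩ := gauss (M := n' ^ 2 - 1) (p := b' * e) (q := b' * (n * e + r) - (e + n' * (n * e + r)))
    (u := n' * b' * (n * e + r) - n' * e - (n * e + r)) (v := n' * b' * e) g0 (fun j => by
      by_cases hj : j ≤ k + 2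
      · have u := b8 j hj
        have v := b8 (k + 2 - j) (by omega)
        rw [Nat.sub_sub_self hj, show k + 2 - j + 1 = k + 3 - j by omega] at v
        zify at u v
        rw [f4 j (by omega), f4 (j + 1) (by omega)] at u
        rw [f6 j (by omega), show c' (k + 2 - j) = c' (k + 3 - (j + 1)) by congr 1; omega, f6 _ (by omega)] at v
        exact ⟨d' j, by linear_combination -n' * v - u⟩
      · simp [g0 j (by omega), g0 (j + 1) (by omega), g0 (j + 2) (by omega), g0 (j + 3) (by omega)]) 3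
  have f7 : ∀ j ≤ k + 3, c' j < n' := fun j hj => by
    induction j with
    | zero => omega
    | succ j ih =>
      have u := b8 j (by omega)
      have v := Nat.mul_le_mul_left n' (b4 (k + 2 - j) (by omega))
      have := ih (by omega)
      refine lt_of_mul_lt_mul_left (a := b') ?_ (by omega)
      nlinarith
  have k1 : (c' (k + 1) : ℤ) = (n * e + r) * G 3 := by simpa [g0 2] using f6 2 (by omega)
  have k2 : (d 0 : ℤ) = e * G 3 := by simpa [g0 2, hc 0] using f4 1 (by omega)
  have k3 : 0 < G 3 := (mul_pos_iff_of_pos_left e0).mp (k2 ▸ by omega)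
  have k4 : c 1 < n := by
    have u := a8 0 (by omega)
    have v := Nat.mul_le_mul_left n (a4 (k - 0) (by omega))
    refine lt_of_mul_lt_mul_left (a := b) ?_ (by omega)
    nlinarith
  have := ar (N := n') e0 r0 k3 z1 hr.symm (by rw [← g1 1 (by omega)]; exact_mod_cast k4)
    (by rw [mul_comm, ← k1]; exact_mod_cast f7 _ (by omega))
    ((dvd_sub (q1.mul_left (n * e + r)) (q2.mul_left e)).trans (by apply Eq.dvd; ring))
  omega

end Pool.Agent.Results.MP_6bbb8b_nt.No
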